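import Pool.Agent.helper68.SF.SpecW

/-! WI: invariance of the wave. -/

set_option autoImplicit false

namespace SF

lemma WI_YYpos (v : ℤ × ℤ) (hv : v ∈ Pv) (x y : ℝ) (hy : 0 < y) : 0 < YY v x y := by
  unfold YY Yr
  have hv' : Int.gcd v.1 v.2 = 1 := hv
  have hden : 0 < ((v.1 : ℝ) * x + v.2) ^ 2 + ((v.1 : ℝ) * y) ^ 2 := by
    by_cases h1 : v.1 = 0
    · have h2 : v.2 ≠ 0 := by
        intro h2
        rw [h1, h2] at hv'
        simp at hv'
      have h3 : (v.2 : ℝ) ≠ 0 := by exact_mod_cast h2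
      rw [h1]
      have : 0 < (v.2 : ℝ) ^ 2 := by positivity
      simpa using this
    · have h3 : (v.1 : ℝ) ≠ 0 := by exact_mod_cast h1
      have h4 : 0 < ((v.1 : ℝ) * y) ^ 2 := by
        have : (v.1 : ℝ) * y ≠ 0 := mul_ne_zero h3 hy.ne'
        positivity
      have h5 : 0 ≤ ((v.1 : ℝ) * x + v.2) ^ 2 := sq_nonneg _
      linarith
  exact div_pos hy hden

lemma WI_bij1 : Set.BijOn (fun v : ℤ × ℤ => (v.2, -v.1)) Pv Pv := by
  have hmem : ∀ v : ℤ × ℤ, v ∈ Pv → (v.2, -v.1) ∈ Pv := by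
    intro v hv
    have hv' : Int.gcd v.1 v.2 = 1 := hv
    show Int.gcd v.2 (-v.1) = 1
    rw [Int.gcd_neg, Int.gcd_comm]
    exact hv'
  refine ⟨fun v hv => hmem v hv, ?_, ?_⟩
  · intro u _ v _ h
    have h1 := congrArg Prod.fst h
    have h2 := congrArg Prod.snd h
    simp only [neg_inj] at h1 h2
    exact Prod.ext h2 h1
  · intro v hv
    refine ⟨(-v.2, v.1), ?_, ?_⟩
    · have hv' : Int.gcd v.1 v.2 = 1 := hv
      show Int.gcd (-v.2) v.1 = 1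
      rw [Int.gcd_comm, Int.gcd_neg]
      exact hv'
    · simp

lemma WI_bij2 : Set.BijOn (fun v : ℤ × ℤ => (v.1, v.1 + v.2)) Pv Pv := by
  refine ⟨?_, ?_, ?_⟩
  · intro v hv
    have hv' : Int.gcd v.1 v.2 = 1 := hv
    show Int.gcd v.1 (v.1 + v.2) = 1
    rw [Int.gcd_self_add_right]
    exact hv'
  · intro u _ v _ h
    have h1 := congrArg Prod.fst h
    have h2 := congrArg Prod.snd h
    simp only at h1 h2
    have h3 : u.2 = v.2 := by omega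
    exact Prod.ext h1 h3
  · intro v hv
    refine ⟨(v.1, v.2 - v.1), ?_, ?_⟩
    · have hv' : Int.gcd v.1 v.2 = 1 := hv
      show Int.gcd v.1 (v.2 - v.1) = 1
      rw [Int.gcd_sub_self_right]
      exact hv'
    · ext
      · rfl
      · show v.1 + (v.2 - v.1) = v.2
        omega

theorem WI (hMS : MS_stmt) (hPJ : PJ_stmt) (hRO : RO_stmt) (hBCH : BCH_stmt) : WI_stmt := by
  intro g hg s x y hy
  obtain ⟨-, hper, -, -⟩ := hPJ
  refine ⟨?_, ?_⟩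
  · unfold ww
    congr 1
    refine finsum_mem_eq_of_bijOn (fun v : ℤ × ℤ => (v.2, -v.1)) WI_bij1 ?_
    intro v hv
    have hv' : (v.2, -v.1) ∈ Pv := WI_bij1.mapsTo hv
    obtain ⟨⟨n, hn⟩, -⟩ := hMS v hv
    obtain ⟨e1, e2⟩ := hn x y hy
    obtain ⟨e3, -⟩ := hn 0 1 one_pos
    have e4 : XX v 0 1 = XX (v.2, -v.1) 0 1 + n := by
      have h5 : (-(0 / ((0 : ℝ) ^ 2 + 1 ^ 2))) = 0 := by norm_num
      have h6 : (1 / ((0 : ℝ) ^ 2 + 1 ^ 2)) = 1 := by norm_num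
      rw [h5, h6] at e3
      exact e3
    unfold FF
    rw [e1, e2, e4, hper]
    have h7 := (hRO g hg s (XX (v.2, -v.1) x y) (YY (v.2, -v.1) x y) (XX (v.2, -v.1) 0 1)
      (WI_YYpos _ hv' x y hy)).2 n
    rw [h7]
  · have hF : ∀ v ∈ Pv, FF g v s (x + 1) y = FB g (v.1, v.1 + v.2) (-1) 1 s x y := by
      intro v hv
      have hv' : (v.1, v.1 + v.2) ∈ Pv := WI_bij2.mapsTo hv
      obtain ⟨-, ⟨n, hn⟩, -⟩ := hMS v hv
      obtain ⟨e1, e2⟩ := hn x y hy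
      obtain ⟨e3, -⟩ := hn (-1) 1 one_pos
      have e4 : XX v 0 1 = XX (v.1, v.1 + v.2) (-1) 1 + n := by
        have h5 : (-1 : ℝ) + 1 = 0 := by norm_num
        rw [h5] at e3
        exact e3
      unfold FF FB
      rw [e1, e2, e4, hper]
      have h7 := (hRO g hg s (XX (v.1, v.1 + v.2) x y) (YY (v.1, v.1 + v.2) x y)
        (XX (v.1, v.1 + v.2) (-1) 1) (WI_YYpos _ hv' x y hy)).2 n
      rw [h7]
    have h1 : ∑ᶠ v ∈ Pv, FF g v s (x + 1) y = ∑ᶠ v ∈ Pv, FB g v (-1) 1 s x y := by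
      refine finsum_mem_eq_of_bijOn (fun v : ℤ × ℤ => (v.1, v.1 + v.2)) WI_bij2 ?_
      intro v hv
      exact hF v hv
    have h2 := hBCH g hg (-1) 1 s x y one_pos hy
    have h3 : ∑ᶠ v ∈ Pv, FB g v 0 1 s x y = ∑ᶠ v ∈ Pv, FF g v s x y := rfl
    unfold ww
    rw [h1, h2, h3]

end SF
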